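import Pool.Agent.MP_77f003_co.H34.Defs
import Pool.Agent.MP_77f003_co.H49.Defs

/-!
Transfer lemmas: a union of components as a full subgraph, and countably many disjoint copies of
a planar graph.
-/

open scoped ENNReal NNReal
open SimpleGraph

namespace Pool.Agent.MP_77f003_co.H34

universe u v

section Emb

variable {V : Type u} {U : Type v} {G : SimpleGraph V} {G' : SimpleGraph U}

lemma edist_hom_le (φ : G' →g G) (a b : U) : G.edist (φ a) (φ b) ≤ G'.edist a b := by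
  by_cases h : G'.edist a b = ⊤
  · rw [h]; exact le_top
  · obtain ⟨p, hp⟩ := exists_walk_of_edist_ne_top h
    rw [← hp, ← Walk.length_map φ p]
    exact edist_le _

lemma lift_walk (φ : G' ↪g G) (hcl : ∀ a y, G.Adj (φ a) y → ∃ b, φ b = y) {x y : V}
    (p : G.Walk x y) : ∀ a, φ a = x → ∃ b, φ b = y ∧ ∃ q : G'.Walk a b, q.length = p.length := by
  induction p with
  | nil => exact fun a ha => ⟨a, ha, Walk.nil, rfl⟩
  | cons h p ih =>
    intro a ha
    subst ha
    obtain ⟨c, hc⟩ := hcl a _ h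
    obtain ⟨b, hb, q, hq⟩ := ih c hc
    refine ⟨b, hb, Walk.cons (φ.map_adj_iff.1 (hc ▸ h)) q, ?_⟩
    simp [hq]

lemma edist_emb (φ : G' ↪g G) (hcl : ∀ a y, G.Adj (φ a) y → ∃ b, φ b = y) (a b : U) :
    G.edist (φ a) (φ b) = G'.edist a b := by
  refine le_antisymm (edist_hom_le φ.toHom a b) ?_
  by_cases h : G.edist (φ a) (φ b) = ⊤
  · rw [h]; exact le_top
  · obtain ⟨p, hp⟩ := exists_walk_of_edist_ne_top h
    obtain ⟨c, hc, q, hq⟩ := lift_walk φ hcl p a rfl
    obtain rfl : c = b := φ.injective hc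
    rw [← hp, ← hq]
    exact edist_le _

lemma edist_iso (φ : G' ≃g G) (a b : U) : G.edist (φ a) (φ b) = G'.edist a b :=
  edist_emb φ.toEmbedding (fun _ y _ => ⟨φ.symm y, by simp⟩) a b

lemma sub_conn (φ : G' →g G) {B : G'.Subgraph} (h : B.Connected) : (B.map φ).Connected := by
  let ψ : B.coe →g (B.map φ).coe :=
    ⟨fun x => ⟨φ x, x, x.2, rfl⟩, fun {x y} hxy => ⟨x, y, hxy, rfl, rfl⟩⟩
  refine ⟨SimpleGraph.Connected.map ψ ?_ h.coe⟩
  rintro ⟨_, x, hx, rfl⟩
  exact ⟨⟨x, hx⟩, rfl⟩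

end Emb

/-- Fat minors of a union of components are fat minors of the graph. -/
lemma fat_emb {V : Type u} {U W : Type} {G : SimpleGraph V} {G' : SimpleGraph U}
    (φ : G' ↪g G) (hcl : ∀ a y, G.Adj (φ a) y → ∃ b, φ b = y) (H : SimpleGraph W)
    (h : H49.AsymptoticMinor H G') : AsymptoticMinor H G := by
  intro K _
  obtain ⟨B, a, b, p, h1, h2, h3, h4, h5, h6⟩ := h (⌈K⌉₊ + 1) (Nat.succ_pos _)
  have key : ∀ x y : U, ((⌈K⌉₊ + 1 : ℕ) : ℕ∞) ≤ G'.edist x y →
      (K : ℝ≥0∞) ≤ gdist G (φ.toHom x) (φ.toHom y) := by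
    intro x y hxy
    have e : G.edist (φ.toHom x) (φ.toHom y) = G'.edist x y := edist_emb φ hcl x y
    unfold gdist
    rw [e]
    refine le_trans ?_ (ENat.toENNReal_le.2 hxy)
    rw [ENat.toENNReal_coe, ← ENNReal.coe_natCast, ENNReal.coe_le_coe]
    push_cast
    exact (Nat.le_ceil K).trans (le_add_of_nonneg_right zero_le_one)
  refine ⟨fun v => (B v).map φ.toHom, fun e => φ.toHom (a e), fun e => φ.toHom (b e),
    fun e => (p e).map φ.toHom, fun v => sub_conn _ (h1 v), fun e => ?_, fun e => ?_, ?_, ?_, ?_⟩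
  · exact Walk.IsPath.map φ.injective (h2 e)
  · obtain ⟨u, v, e1, e2, e3⟩ := h3 e
    exact ⟨u, v, e1, ⟨_, e2, rfl⟩, ⟨_, e3, rfl⟩⟩
  · rintro u v huv _ ⟨x, hx, rfl⟩ _ ⟨y, hy, rfl⟩
    exact key x y (h4 u v huv x hx y hy)
  · intro e f hef x hx y hy
    rw [Walk.support_map, List.mem_map] at hx hy
    obtain ⟨x, hx, rfl⟩ := hx
    obtain ⟨y, hy, rfl⟩ := hy
    exact key x y (h5 e f hef x hx y hy)
  · rintro e v hv x hx _ ⟨y, hy, rfl⟩
    rw [Walk.support_map, List.mem_map] at hx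
    obtain ⟨x, hx, rfl⟩ := hx
    exact key x y (h6 e v hv x hx y hy)

/-- Disjoint copies of a graph. -/
def copies (I : Type) {W : Type} (P : SimpleGraph W) : SimpleGraph (I × W) where
  Adj x y := x.1 = y.1 ∧ P.Adj x.2 y.2
  symm := ⟨fun _ _ h => ⟨h.1.symm, h.2.symm⟩⟩
  loopless := ⟨fun _ h => h.2.ne rfl⟩

/-- The copy with index `i`. -/
def copyEmb {I W : Type} (P : SimpleGraph W) (i : I) : P ↪g copies I P where
  toFun a := (i, a)
  inj' _ _ h := (Prod.mk.inj h).2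
  map_rel_iff' := ⟨fun h => h.2, fun h => ⟨rfl, h⟩⟩

lemma edist_copies {I W : Type} (P : SimpleGraph W) (i : I) (a b : W) :
    (copies I P).edist (i, a) (i, b) = P.edist a b :=
  edist_emb (copyEmb P i) (fun _ y h => ⟨y.2, Prod.ext h.1 rfl⟩) a b

lemma edist_copies_ne {I W : Type} (P : SimpleGraph W) {i j : I} (hij : i ≠ j) (a b : W) :
    (copies I P).edist (i, a) (j, b) = ⊤ := by
  refine edist_eq_top_of_not_reachable ?_
  rintro ⟨p⟩
  obtain ⟨c, hc, -⟩ := lift_walk (copyEmb P i) (fun _ y h => ⟨y.2, Prod.ext h.1 rfl⟩) p a rfl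
  exact hij (Prod.mk.inj hc).1

/-- The plane squeezed into the `n`-th vertical strip. -/
noncomputable def strip (n : ℕ) : C(ℝ × ℝ, ℝ × ℝ) :=
  ⟨fun z => (Real.arctan z.1 + 4 * n, z.2), by fun_prop⟩

lemma strip_inj {n m : ℕ} {z w : ℝ × ℝ} (h : strip n z = strip m w) : n = m ∧ z = w := by
  have h1 : Real.arctan z.1 + 4 * n = Real.arctan w.1 + 4 * m := congrArg Prod.fst h
  have h2 : z.2 = w.2 := (congrArg Prod.snd h : (strip n z).2 = (strip m w).2)
  have a1 := Real.arctan_lt_pi_div_two z.1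
  have a2 := Real.neg_pi_div_two_lt_arctan z.1
  have a3 := Real.arctan_lt_pi_div_two w.1
  have a4 := Real.neg_pi_div_two_lt_arctan w.1
  have a5 := Real.pi_le_four
  have b1 : (n : ℝ) < m + 1 := by linarith
  have b2 : (m : ℝ) < n + 1 := by linarith
  have hnm : n = m := by
    have c1 : n < m + 1 := by exact_mod_cast b1
    have c2 : m < n + 1 := by exact_mod_cast b2
    omega
  subst hnm
  exact ⟨rfl, Prod.ext (Real.arctan_injective (by linarith)) h2⟩

lemma planar_copies {I W : Type} [Countable I] {P : SimpleGraph W} (h : H49.Planar P) :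
    Planar (copies I P) := by
  obtain ⟨pos, arc, h1, h2, h3, h4⟩ := h
  obtain ⟨c, hc⟩ := exists_injective_nat I
  have hex : ∀ e : (copies I P).edgeSet, ∃ (i : I) (e' : P.edgeSet),
      (e : Sym2 (I × W)) = Sym2.map (Prod.mk i) e' := by
    rintro ⟨e, he⟩
    induction e using Sym2.ind with
    | h x y =>
      obtain ⟨i, a⟩ := x
      obtain ⟨j, b⟩ := y
      obtain ⟨hij, hab⟩ : i = j ∧ P.Adj a b := he
      subst hij
      exact ⟨i, ⟨s(a, b), hab⟩, rfl⟩
  choose ix ed hed using hex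
  refine ⟨fun x => strip (c x.1) (pos x.2), fun e => (strip (c (ix e))).comp (arc (ed e)),
    ?_, ?_, ?_, ?_⟩
  · intro x y hxy
    obtain ⟨e1, e2⟩ := strip_inj hxy
    exact Prod.ext (hc e1) (h1 e2)
  · intro e s t hst
    exact h2 _ (strip_inj hst).2
  · intro e
    obtain ⟨u, v, e1, e2, e3⟩ := h3 (ed e)
    refine ⟨(ix e, u), (ix e, v), ?_, ?_, ?_⟩
    · rw [hed, e1]; rfl
    · simp [e2]
    · simp [e3]
  · intro e t t0 t1
    refine ⟨fun w hw => (h4 (ed e) t t0 t1).1 w.2 (strip_inj hw).2, fun f hf s hs => ?_⟩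
    obtain ⟨e1, e2⟩ := strip_inj hs
    refine (h4 (ed e) t t0 t1).2 (ed f) (fun e3 => hf ?_) s e2
    apply Subtype.ext
    rw [hed, hed, e3, hc e1]

end Pool.Agent.MP_77f003_co.H34
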