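import Mathlib

/-!
Fat minors, asymptotic minors, planar graphs and quasi-isometric graphs.  Distances are the graph
distances with values in `[0, ∞]`, so that the graphs need not be connected.
-/

open scoped ENNReal NNReal

namespace Pool.Agent.MP_77f003_co.H34

universe u

/-- The graph distance; it is infinite exactly for vertices in different components. -/
noncomputable def gdist {V : Type u} (G : SimpleGraph V) (x y : V) : ℝ≥0∞ := (G.edist x y : ℕ∞)

/-- `H` is a `K`-fat minor of `G`: connected subgraphs `B v` and paths `p e`, the path of an edge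
joining the subgraphs of its two endpoints, all at distance at least `K` from each other except a
path and the subgraph of one of its endpoints. -/
def FatMinor {W : Type} {V : Type u} (H : SimpleGraph W) (G : SimpleGraph V) (K : ℝ≥0) : Prop :=
  ∃ (B : W → G.Subgraph) (a b : H.edgeSet → V) (p : ∀ e, G.Walk (a e) (b e)),
    (∀ v, (B v).Connected) ∧ (∀ e, (p e).IsPath) ∧
    (∀ e : H.edgeSet, ∃ u v, (e : Sym2 W) = s(u, v) ∧ a e ∈ (B u).verts ∧ b e ∈ (B v).verts) ∧
    (∀ u v, u ≠ v → ∀ x ∈ (B u).verts, ∀ y ∈ (B v).verts, K ≤ gdist G x y) ∧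
    (∀ e f, e ≠ f → ∀ x ∈ (p e).support, ∀ y ∈ (p f).support, K ≤ gdist G x y) ∧
    (∀ (e : H.edgeSet) (v : W), v ∉ (e : Sym2 W) →
      ∀ x ∈ (p e).support, ∀ y ∈ (B v).verts, K ≤ gdist G x y)

/-- `H` is an asymptotic minor of `G`: a `K`-fat minor for every `K > 0`. -/
def AsymptoticMinor {W : Type} {V : Type u} (H : SimpleGraph W) (G : SimpleGraph V) : Prop :=
  ∀ K : ℝ≥0, 0 < K → FatMinor H G K

/-- `P` has a drawing in the plane without crossings: distinct points for the vertices and a simple
arc for each edge between the points of its endpoints, whose interior contains no vertex point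
and no point of another arc. -/
def Planar {W : Type} (P : SimpleGraph W) : Prop :=
  ∃ (pos : W → ℝ × ℝ) (arc : P.edgeSet → C(unitInterval, ℝ × ℝ)),
    Function.Injective pos ∧ (∀ e, Function.Injective (arc e)) ∧
    (∀ e : P.edgeSet, ∃ u v, (e : Sym2 W) = s(u, v) ∧ arc e 0 = pos u ∧ arc e 1 = pos v) ∧
    (∀ e t, t ≠ 0 → t ≠ 1 → (∀ w, arc e t ≠ pos w) ∧ ∀ f, f ≠ e → ∀ s, arc e t ≠ arc f s)

/-- The vertex sets of `G` and `P` with their graph distances are quasi-isometric. -/
def QuasiIsometric {V : Type u} {W : Type} (G : SimpleGraph V) (P : SimpleGraph W) : Prop :=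
  ∃ (f : V → W) (A B : ℝ≥0), 1 ≤ A ∧
    (∀ x y, gdist G x y / A - B ≤ gdist P (f x) (f y) ∧
      gdist P (f x) (f y) ≤ A * gdist G x y + B) ∧
    ∀ w, ∃ x, gdist P w (f x) ≤ B

end Pool.Agent.MP_77f003_co.H34
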