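import Pool.Agent.MP_77f003_co.H34.Comp
import Pool.Agent.MP_77f003_co.H49.Full

/-!
The coarse planarity dichotomy for graphs with countably many components, in any universe.
-/

open scoped ENNReal NNReal
open SimpleGraph

namespace Pool.Agent.MP_77f003_co.H34

universe u

/-- The connected case. -/
theorem connected_case {V : Type} (G : SimpleGraph V) (hlf : ∀ v, (G.neighborSet v).Finite)
    (hc : G.Connected) (ht : ∀ u v, ∃ φ : G ≃g G, φ u = v) :
    (∃ (W : Type) (P : SimpleGraph W), P.Connected ∧ H49.Planar P ∧ H49.QuasiIsometric G P) ∨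
      ∀ (W : Type) [Finite W] (H : SimpleGraph W), H49.AsymptoticMinor H G := by
  have : Fact G.Connected := ⟨hc⟩
  let _ : G.LocallyFinite := fun v => (hlf v).fintype
  by_cases h : ∀ K h, H49.FatCl G K h
  · exact Or.inr fun W _ H K _ => H49.fatMinor_of_fatCl H (h K _)
  by_cases hA : H49.Acc G
  · push Not at h
    obtain ⟨K, h, hno⟩ := h
    obtain ⟨k, hk⟩ := hA
    exact Or.inl (H49.planar_of_accessible ht hk hno)
  · exact absurd (H49.fatCl_of_not_acc ht hA) h

lemma countable_reach {V : Type u} (G : SimpleGraph V) (hlf : ∀ v, (G.neighborSet v).Finite)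
    (o : V) : {x | G.Reachable o x}.Countable := by
  have h : ∀ n : ℕ, {x | ∃ p : G.Walk x o, p.length = n}.Finite := by
    intro n
    induction n with
    | zero =>
      refine (Set.finite_singleton o).subset ?_
      rintro x ⟨p, hp⟩
      exact Walk.eq_of_length_eq_zero hp
    | succ n ih =>
      refine (ih.biUnion fun y _ => hlf y).subset ?_
      rintro x ⟨p, hp⟩
      cases p with
      | nil => simp at hp
      | cons a q =>
        simp only [Set.mem_iUnion]
        exact ⟨_, ⟨q, by simpa using hp⟩, a.symm⟩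
  refine (Set.countable_iUnion fun n => (h n).countable).mono ?_
  rintro x ⟨p⟩
  exact Set.mem_iUnion.2 ⟨_, p.reverse, rfl⟩

/-- The component of `o` as a graph on a small type. -/
lemma exists_component {V : Type u} (G : SimpleGraph V) (hlf : ∀ v, (G.neighborSet v).Finite)
    (ht : ∀ u v, ∃ φ : G ≃g G, φ u = v) (o : V) :
    ∃ (U : Type) (G' : SimpleGraph U) (φ : G' ↪g G), (∀ x, G.Reachable o x ↔ ∃ a, φ a = x) ∧
      (∀ v, (G'.neighborSet v).Finite) ∧ G'.Connected ∧ ∀ u v, ∃ ψ : G' ≃g G', ψ u = v := by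
  let S : Set V := {x | G.Reachable o x}
  have : Countable S := (countable_reach G hlf o).to_subtype
  let e : Shrink.{0} S ≃ S := (equivShrink.{0} S).symm
  let ι : Shrink.{0} S ↪ V := e.toEmbedding.trans (Function.Embedding.subtype _)
  let φ : G.comap ι ↪g G := Embedding.comap ι G
  have hr : ∀ x, G.Reachable o x ↔ ∃ a, φ a = x := fun x =>
    ⟨fun h => ⟨e.symm ⟨x, h⟩, by simp [φ, ι]⟩, by rintro ⟨a, rfl⟩; exact (e a).2⟩
  have hcl : ∀ a y, G.Adj (φ a) y → ∃ b, φ b = y := fun a y h =>
    (hr y).1 (((hr _).2 ⟨a, rfl⟩).trans h.reachable)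
  refine ⟨Shrink.{0} S, G.comap ι, φ, hr, fun v => ?_, ?_, fun u v => ?_⟩
  · exact (hlf (ι v)).preimage ι.injective.injOn
  · obtain ⟨a, ha⟩ := (hr o).1 Reachable.rfl
    refine (connected_iff_exists_forall_reachable _).2 ⟨a, fun b => ?_⟩
    obtain ⟨p⟩ := (hr _).2 ⟨b, rfl⟩
    obtain ⟨c, hc, q, -⟩ := lift_walk φ hcl p a ha
    obtain rfl : c = b := φ.injective hc
    exact ⟨q⟩
  · obtain ⟨ψ, hψ⟩ := ht (φ u) (φ v)
    have hu : G.Reachable o (φ u) := (hr _).2 ⟨u, rfl⟩
    have hv : G.Reachable o (φ v) := (hr _).2 ⟨v, rfl⟩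
    have hS : ∀ x, x ∈ S ↔ ψ.toEquiv x ∈ S := by
      intro x
      have h1 : G.Reachable (ψ (φ u)) (ψ x) ↔ G.Reachable (φ u) x := Iso.reachable_iff
      rw [hψ] at h1
      exact ⟨fun h => hv.trans (h1.2 (hu.symm.trans h)), fun h => hu.trans (h1.1 (hv.symm.trans h))⟩
    let χ : Shrink.{0} S ≃ Shrink.{0} S := (e.trans (ψ.toEquiv.subtypeEquiv hS)).trans e.symm
    have hχ : ∀ a, ι (χ a) = ψ (ι a) := fun a => by simp [χ, ι]
    refine ⟨⟨χ, fun {a b} => ?_⟩, ι.injective ((hχ u).trans hψ)⟩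
    simp only [comap_adj, hχ]
    exact ψ.map_adj_iff

lemma gdist_eq {U : Type} {G : SimpleGraph U} (h : G.Connected) (x y : U) :
    gdist G x y = ENNReal.ofReal (G.dist x y) := by
  rw [gdist, ← (h x y).coe_dist_eq_edist, ENat.toENNReal_coe, ENNReal.ofReal_natCast]

/-- The two forms of quasi-isometry agree for connected graphs. -/
lemma qi_of_conn {U W : Type} {G : SimpleGraph U} {P : SimpleGraph W} (hG : G.Connected)
    (hP : P.Connected) (h : H49.QuasiIsometric G P) : QuasiIsometric G P := by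
  obtain ⟨f, A, B, hA, hB, h1, h2⟩ := h
  lift A to ℝ≥0 using zero_le_one.trans hA
  lift B to ℝ≥0 using hB
  have hA0 : (0 : ℝ) < A := zero_lt_one.trans_le hA
  refine ⟨f, A, B, by exact_mod_cast hA, fun x y => ⟨?_, ?_⟩, fun w => ?_⟩
  · rw [gdist_eq hG, gdist_eq hP, ← ENNReal.ofReal_coe_nnreal (p := A),
      ← ENNReal.ofReal_coe_nnreal (p := B), ← ENNReal.ofReal_div_of_pos hA0,
      ← ENNReal.ofReal_sub _ B.coe_nonneg]
    exact ENNReal.ofReal_le_ofReal (h1 x y).1
  · rw [gdist_eq hG, gdist_eq hP, ← ENNReal.ofReal_coe_nnreal (p := A),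
      ← ENNReal.ofReal_coe_nnreal (p := B), ← ENNReal.ofReal_mul hA0.le,
      ← ENNReal.ofReal_add (by positivity) B.coe_nonneg]
    exact ENNReal.ofReal_le_ofReal (h1 x y).2
  · obtain ⟨x, hx⟩ := h2 w
    refine ⟨x, ?_⟩
    rw [gdist_eq hP, ← ENNReal.ofReal_coe_nnreal (p := B)]
    exact ENNReal.ofReal_le_ofReal hx

theorem dichotomy {V : Type u} (G : SimpleGraph V) (hlf : ∀ v, (G.neighborSet v).Finite)
    (ht : ∀ u v, ∃ φ : G ≃g G, φ u = v) (hc : Countable G.ConnectedComponent) :
    (∃ (W : Type) (P : SimpleGraph W), Planar P ∧ QuasiIsometric G P) ∨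
      ∀ (W : Type) [Finite W] (H : SimpleGraph W), AsymptoticMinor H G := by
  rcases isEmpty_or_nonempty V with hV | ⟨⟨o⟩⟩
  · refine Or.inl ⟨Empty, ⊥, ⟨Empty.elim, fun e => absurd e.2 (by simp), fun x => x.elim,
      fun e => absurd e.2 (by simp), fun e => absurd e.2 (by simp),
      fun e => absurd e.2 (by simp)⟩, hV.elim, 1, 0, le_rfl, hV.elim, fun w => w.elim⟩
  obtain ⟨U, G', φ, hr, h1, h2, h3⟩ := exists_component G hlf ht o
  have hcl : ∀ a y, G.Adj (φ a) y → ∃ b, φ b = y := fun a y h =>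
    (hr y).1 (((hr _).2 ⟨a, rfl⟩).trans h.reachable)
  rcases connected_case G' h1 h2 h3 with ⟨W, P, hP, hpl, hq⟩ | h
  swap
  · exact Or.inr fun W _ H => fat_emb φ hcl H (h W H)
  obtain ⟨f, A, B, hA, q1, q2⟩ := qi_of_conn h2 hP hq
  let e : G.ConnectedComponent ≃ Shrink.{0} G.ConnectedComponent := equivShrink _
  have : Countable (Shrink.{0} G.ConnectedComponent) := e.symm.injective.countable
  have hψ : ∀ c : G.ConnectedComponent, ∃ ψ : G ≃g G,
      ∀ x, G.connectedComponentMk x = c ↔ ∃ a, φ a = ψ x := by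
    intro c
    obtain ⟨z, rfl⟩ := c.exists_rep
    obtain ⟨ψ, hz⟩ := ht z o
    refine ⟨ψ, fun x => ?_⟩
    rw [← hr, ← hz, Iso.reachable_iff, reachable_comm]
    exact ConnectedComponent.eq
  choose ψ hψ using hψ
  choose r hr' using fun x => (hψ (G.connectedComponentMk x) x).1 rfl
  refine Or.inl ⟨_, copies (Shrink.{0} G.ConnectedComponent) P, planar_copies hpl,
    fun x => (e (G.connectedComponentMk x), f (r x)), A, B, hA, fun x y => ?_, ?_⟩
  · by_cases hxy : G.connectedComponentMk x = G.connectedComponentMk y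
    · have e1 : gdist G x y = gdist G' (r x) (r y) := by
        unfold gdist
        rw [← edist_emb φ hcl, hr', hr', hxy, edist_iso]
      have e2 : gdist (copies (Shrink.{0} G.ConnectedComponent) P)
          (e (G.connectedComponentMk x), f (r x)) (e (G.connectedComponentMk y), f (r y)) =
          gdist P (f (r x)) (f (r y)) := by
        unfold gdist
        rw [hxy, edist_copies]
      rw [e1, e2]
      exact q1 _ _
    · have e1 : gdist G x y = ⊤ := by
        unfold gdist
        rw [edist_eq_top_of_not_reachable fun h => hxy (ConnectedComponent.sound h)]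
        rfl
      have e2 : gdist (copies (Shrink.{0} G.ConnectedComponent) P)
          (e (G.connectedComponentMk x), f (r x)) (e (G.connectedComponentMk y), f (r y)) = ⊤ := by
        unfold gdist
        rw [edist_copies_ne P fun h => hxy (e.injective h)]
        rfl
      have hA0 : (A : ℝ≥0∞) ≠ 0 := by exact_mod_cast (zero_lt_one.trans_le hA).ne'
      rw [e1, e2, ENNReal.mul_top hA0]
      exact ⟨le_top, by simp⟩
  · rintro ⟨i, w⟩
    obtain ⟨c, rfl⟩ := e.surjective i
    obtain ⟨a, ha⟩ := q2 w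
    have hx : G.connectedComponentMk ((ψ c).symm (φ a)) = c := (hψ c _).2 ⟨a, by simp⟩
    refine ⟨(ψ c).symm (φ a), ?_⟩
    have hra : r ((ψ c).symm (φ a)) = a := by
      apply φ.injective
      change φ _ = φ a
      rw [hr', hx]
      simp
    unfold gdist at ha ⊢
    simp only [hx, hra, edist_copies]
    exact ha

end Pool.Agent.MP_77f003_co.H34
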